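import Pool.Agent.H82.EUC.Stmts3

/-!
Row DMG of board euc.
-/

set_option autoImplicit false

namespace Pool.EUC

theorem dmg_thm (hO : OPP_S) : DMG_S := by
  intro A V G dM dW iM iW F hF u v k l guv gkl huk hul hvk hvl m h1 h2
  have huv : u ≠ v := guv.ne
  have hkl : k ≠ l := gkl.ne
  have e1 := (hF.m2 u v k l guv gkl huk hul hvk hvl).2 m
  have e2 := (hF.m2 k l v u gkl guv.symm hvk.symm huk.symm hvl.symm hul.symm).2 m
  have e3 := (hF.m3 u v k l guv gkl huk hul hvk hvl).2 m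
  rw [hF.bsymm k l] at e1
  rw [hF.bsymm v u] at e2
  have n1 : dM m (F.a l m) ≠ dM m (F.b l k m) := fun h => h2 (iM m h)
  have n2 : dM m (F.a u m) ≠ dM m (F.b u v m) := fun h => h1 (iM m h)
  have x1 : dM m (F.a l m) = dM m (F.c u v l m) := by
    rcases min_choice (dM m (F.c u v l m)) (dM m (F.b l k m)) with h | h
    · rw [e1, h]
    · exact absurd (e1.trans h) n1
  have x2 : dM m (F.a u m) = dM m (F.c k l u m) := by
    rcases min_choice (dM m (F.c k l u m)) (dM m (F.b u v m)) with h | h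
    · rw [e2, h]
    · exact absurd (e2.trans h) n2
  rw [← x1, ← x2] at e3
  have o1 : dM m (F.a u m) ≤ dM m (F.d u l m) :=
    hO A dM dW iM iW _ _ (hF.sa u) (hF.sd u l hul) (hF.ad u l hul) m
  have o2 : dM m (F.a l m) ≤ dM m (F.d u l m) := by
    have h := hO A dM dW iM iW _ _ (hF.sa l) (hF.sd l u hul.symm) (hF.ad l u hul.symm) m
    rwa [hF.dsymm l u] at h
  have o3 : dM m (F.a u m) = dM m (F.a l m) := by
    rw [e3] at o1 o2
    exact le_antisymm (o1.trans (min_le_left _ _)) (o2.trans (min_le_right _ _))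
  have o4 : dM m (F.b u v m) ≤ dM m (F.c u v l m) :=
    hO A dM dW iM iW _ _ (hF.sb u v guv) (hF.sc u v l guv hul hvl) (hF.bc u v l guv hul hvl) m
  have o5 : dM m (F.a u m) ≤ dM m (F.d u v m) :=
    hO A dM dW iM iW _ _ (hF.sa u) (hF.sd u v huv) (hF.ad u v huv) m
  have o6 : dM m (F.d u v m) ≤ dM m (F.b u v m) :=
    hO A dM dW iM iW _ _ (hF.sd u v huv) (hF.sb u v guv) (hF.db u v guv) m
  rw [← x1, ← o3] at o4
  exact n2 (le_antisymm (o5.trans o6) o4)

end Pool.EUC
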